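import Mathlib
import Pool.Agent.Work.MP_c51d14_co.Basic

/-!
# INT: intervals of faces are exact
-/

namespace Pool.Agent.TP

open Finset

namespace Interval99

variable {ι E : Type} [Fintype ι] [AddCommGroup E] [Module ℝ E]

open scoped Classical in
/-- the faces between `F₀` and `Z` on which `u` is positive outside `F₀` -/
noncomputable def BU (v : ι → E) (u : Module.Dual ℝ E) (F₀ Z : Finset ι) : Finset (Finset ι) :=
  univ.filter fun G => IsFace v G ∧ F₀ ⊆ G ∧ G ⊆ Z ∧ ∀ i ∈ G, i ∉ F₀ → 0 < u (v i)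

theorem mem_BU {v : ι → E} {u : Module.Dual ℝ E} {F₀ Z G : Finset ι} :
    G ∈ BU v u F₀ Z ↔ IsFace v G ∧ F₀ ⊆ G ∧ G ⊆ Z ∧ ∀ i ∈ G, i ∉ F₀ → 0 < u (v i) := by
  simp [BU]

theorem exact_empty {X : Type} (A : Inc X) (n : ℕ) : A.Exact ∅ n :=
  fun _ _ _ => ⟨0, by simp, by simp⟩

open scoped Classical in
/-- the filtration by the zero sets of a functional -/
theorem exact_of_pieces [FiniteDimensional ℝ E] (hF : Stmt_Filt) (hC : Stmt_CxFace) (v : ι → E)
    (s : Finset (Finset ι)) (hs : ∀ G ∈ s, IsFace v G)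
    (hs' : ∀ F ∈ s, ∀ G ∈ s, ∀ H, IsFace v H → F ⊆ H → H ⊆ G → H ∈ s) (u : Module.Dual ℝ E)
    (n : ℕ)
    (h : ∀ G ∈ s, (fInc v).Exact (s.filter fun H =>
      (H.filter fun i => u (v i) = 0) = G.filter fun i => u (v i) = 0) n) :
    (fInc v).Exact s n := by
  refine hF (Finset ι) (Finset ι) (fInc v) s (fun G => G.filter fun i => u (v i) = 0) n
    (hC ι E v s hs hs') ?_ ?_
  · intro x _ y _ hxy
    exact Finset.filter_subset_filter _ (fInc_d.1 hxy).1
  · intro T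
    by_cases hT : ∃ G ∈ s, (G.filter fun i => u (v i) = 0) = T
    · obtain ⟨G, hG, rfl⟩ := hT
      convert h G hG
    · convert exact_empty (fInc v) n
      refine Finset.eq_empty_of_forall_notMem fun G hG => ?_
      simp only [Finset.mem_filter] at hG
      exact hT ⟨G, hG.1, hG.2⟩

theorem BU_face {v : ι → E} {u : Module.Dual ℝ E} {F₀ Z : Finset ι} :
    ∀ G ∈ BU v u F₀ Z, IsFace v G := fun _ hG => (mem_BU.1 hG).1

theorem BU_conv {v : ι → E} {u : Module.Dual ℝ E} {F₀ Z : Finset ι} :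
    ∀ F ∈ BU v u F₀ Z, ∀ G ∈ BU v u F₀ Z, ∀ H, IsFace v H → F ⊆ H → H ⊆ G → H ∈ BU v u F₀ Z := by
  intro F hF G hG H hH hFH hHG
  rw [mem_BU] at *
  exact ⟨hH, hF.2.1.trans hFH, hHG.trans hG.2.2.1, fun i hi => hG.2.2.2 i (hHG hi)⟩

theorem Fam_conv {v : ι → E} {F₀ Z : Finset ι} :
    ∀ F ∈ Fam v F₀ Z ∅, ∀ G ∈ Fam v F₀ Z ∅, ∀ H, IsFace v H → F ⊆ H → H ⊆ G →
      H ∈ Fam v F₀ Z ∅ := by
  intro F hF G hG H hH hFH hHG
  rw [mem_Fam_empty] at *
  exact ⟨hH, hF.2.1.trans hFH, hHG.trans hG.2.2⟩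

open scoped Classical in
/-- Step 1 -/
theorem step1 [FiniteDimensional ℝ E] (hF : Stmt_Filt) (hC : Stmt_CxFace) (v : ι → E)
    (F₀ Z : Finset ι) (hZ : IsFace v Z) (hss : F₀ ⊆ Z) (n : ℕ)
    (ψ : Module.Dual ℝ E) (h0 : ∀ i, 0 ≤ ψ (v i)) (h1 : ∀ i, i ∈ F₀ ↔ ψ (v i) = 0)
    (IHa : ∀ Z', IsFace v Z' → F₀ ⊂ Z' → Z' ⊂ Z → (fInc v).Exact (Fam v F₀ Z' ∅) n)
    (IHb : ∀ (F₁ : Finset ι) (u : Module.Dual ℝ E), IsFace v F₁ → F₀ ⊂ F₁ → F₁ ⊂ Z →
      (∀ i ∈ F₁, u (v i) = 0) → (∃ i ∈ Z, 0 < u (v i)) → (fInc v).Exact (BU v u F₁ Z) n) :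
    ∀ (k : ℕ) (u : Module.Dual ℝ E), (∀ i ∈ F₀, u (v i) = 0) →
      (¬ ∃ s : ℝ, ∀ i ∈ Z, u (v i) = s * ψ (v i)) → (∃ i ∈ Z, 0 < u (v i)) →
      (Z.filter fun i => 0 < u (v i)).card ≤ k → (fInc v).Exact (BU v u F₀ Z) n := by
  intro k
  induction k with
  | zero =>
    intro u _ _ hpos hcard
    obtain ⟨i, hi, hui⟩ := hpos
    have : i ∈ Z.filter fun i => 0 < u (v i) := Finset.mem_filter.2 ⟨hi, hui⟩
    rw [Finset.card_eq_zero.1 (Nat.le_zero.1 hcard)] at this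
    exact absurd this (Finset.notMem_empty _)
  | succ k ih =>
    intro u hu0 hnc hpos hcard
    have hne : (Z.filter fun i => 0 < u (v i)).Nonempty := by
      obtain ⟨i, hi, hui⟩ := hpos
      exact ⟨i, Finset.mem_filter.2 ⟨hi, hui⟩⟩
    obtain ⟨i₁, hi₁, hmin⟩ := Finset.exists_min_image _ (fun i => u (v i) / ψ (v i)) hne
    rw [Finset.mem_filter] at hi₁
    have hpsi : ∀ i, 0 < u (v i) → 0 < ψ (v i) := by
      intro i hi
      refine lt_of_le_of_ne (h0 i) fun h => ?_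
      rw [hu0 i ((h1 i).2 h.symm)] at hi
      exact lt_irrefl _ hi
    obtain ⟨t, ht⟩ : ∃ t, t = u (v i₁) / ψ (v i₁) := ⟨_, rfl⟩
    have htpos : 0 < t := ht ▸ div_pos hi₁.2 (hpsi _ hi₁.2)
    have hmin' : ∀ i ∈ Z, 0 < u (v i) → t * ψ (v i) ≤ u (v i) := by
      intro i hi hui
      have := hmin i (Finset.mem_filter.2 ⟨hi, hui⟩)
      rw [← ht, le_div_iff₀ (hpsi i hui)] at this
      exact this
    obtain ⟨u', hu'⟩ : ∃ u' : Module.Dual ℝ E, u' = u - t • ψ := ⟨_, rfl⟩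
    have hu'v : ∀ i, u' (v i) = u (v i) - t * ψ (v i) := by
      intro i
      rw [hu', LinearMap.sub_apply, LinearMap.smul_apply, smul_eq_mul]
    have hu'1 : u' (v i₁) = 0 := by
      rw [hu'v, ht, div_mul_cancel₀ _ (hpsi _ hi₁.2).ne', sub_self]
    have hu'0 : ∀ i ∈ F₀, u' (v i) = 0 := by
      intro i hi
      rw [hu'v, hu0 i hi, (h1 i).1 hi, mul_zero, sub_zero]
    have hnc' : ¬ ∃ s : ℝ, ∀ i ∈ Z, u' (v i) = s * ψ (v i) := by
      rintro ⟨s, hs⟩
      refine hnc ⟨s + t, fun i hi => ?_⟩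
      have := hs i hi
      rw [hu'v] at this
      linarith
    have hi₁F : i₁ ∉ F₀ := fun h => by
      rw [hu0 _ h] at hi₁
      exact lt_irrefl _ hi₁.2
    by_cases htop : ∃ i ∈ Z, 0 < u' (v i)
    · refine exact_of_pieces hF hC v _ BU_face BU_conv u' n ?_
      intro G hG
      obtain ⟨hG1, hG2, hG3, hG4⟩ := mem_BU.1 hG
      -- on members of the family `u'` is nonnegative
      have hnn : ∀ H ∈ BU v u F₀ Z, ∀ i ∈ H, 0 ≤ u' (v i) := by
        intro H hH i hi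
        obtain ⟨-, -, hH3, hH4⟩ := mem_BU.1 hH
        by_cases hiF : i ∈ F₀
        · rw [hu'0 i hiF]
        · rw [hu'v]
          have := hmin' i (hH3 hi) (hH4 i hi hiF)
          linarith
      obtain ⟨F₁, hF₁⟩ : ∃ F₁, F₁ = G.filter fun i => u' (v i) = 0 := ⟨_, rfl⟩
      have hF₁f : IsFace v F₁ := hF₁ ▸ hG1.rel u' (hnn G hG)
      have hF₀₁ : F₀ ⊆ F₁ := by
        intro i hi
        rw [hF₁, Finset.mem_filter]
        exact ⟨hG2 hi, hu'0 i hi⟩
      have hF₁G : F₁ ⊆ G := hF₁ ▸ Finset.filter_subset _ _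
      have hu'F₁ : ∀ i ∈ F₁, u' (v i) = 0 := by
        intro i hi
        rw [hF₁, Finset.mem_filter] at hi
        exact hi.2
      have hpiece : (BU v u F₀ Z).filter (fun H =>
          (H.filter fun i => u' (v i) = 0) = G.filter fun i => u' (v i) = 0) = BU v u' F₁ Z := by
        ext H
        rw [Finset.mem_filter, ← hF₁]
        constructor
        · rintro ⟨hH, hHF⟩
          obtain ⟨hH1, hH2, hH3, hH4⟩ := mem_BU.1 hH
          refine mem_BU.2 ⟨hH1, hHF ▸ Finset.filter_subset _ _, hH3, fun i hi hiF => ?_⟩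
          refine lt_of_le_of_ne (hnn H hH i hi) fun h => hiF ?_
          rw [← hHF, Finset.mem_filter]
          exact ⟨hi, h.symm⟩
        · intro hH
          obtain ⟨hH1, hH2, hH3, hH4⟩ := mem_BU.1 hH
          refine ⟨mem_BU.2 ⟨hH1, hF₀₁.trans hH2, hH3, fun i hi hiF => ?_⟩, ?_⟩
          · by_cases hi1 : i ∈ F₁
            · exact hG4 i (hF₁G hi1) hiF
            · have h2 := hH4 i hi hi1
              rw [hu'v] at h2
              have h3 := mul_nonneg htpos.le (h0 i)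
              linarith
          · ext i
            rw [Finset.mem_filter]
            constructor
            · rintro ⟨hi, hi0⟩
              by_contra hi1
              have := hH4 i hi hi1
              rw [hi0] at this
              exact lt_irrefl _ this
            · intro hi
              exact ⟨hH2 hi, hu'F₁ i hi⟩
      rw [hpiece]
      by_cases h01 : F₀ = F₁
      · rw [← h01]
        refine ih u' hu'0 hnc' htop ?_
        have hlt : (Z.filter fun i => 0 < u' (v i)).card < (Z.filter fun i => 0 < u (v i)).card := by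
          refine Finset.card_lt_card (Finset.ssubset_iff_subset_ne.2 ⟨?_, ?_⟩)
          · intro i hi
            rw [Finset.mem_filter] at hi ⊢
            refine ⟨hi.1, ?_⟩
            have h2 := hi.2
            rw [hu'v] at h2
            have h3 := mul_nonneg htpos.le (h0 i)
            linarith
          · intro h
            have h2 : i₁ ∈ Z.filter fun i => 0 < u' (v i) := by
              rw [h]
              exact Finset.mem_filter.2 hi₁
            rw [Finset.mem_filter, hu'1] at h2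
            exact lt_irrefl _ h2.2
        omega
      · refine IHb F₁ u' hF₁f (Finset.ssubset_iff_subset_ne.2 ⟨hF₀₁, h01⟩) ?_ hu'F₁ htop
        refine Finset.ssubset_iff_subset_ne.2 ⟨hF₁G.trans hG3, ?_⟩
        rintro rfl
        obtain ⟨i, hi, hi'⟩ := htop
        rw [hu'F₁ i hi] at hi'
        exact lt_irrefl _ hi'
    · push Not at htop
      -- all positive heights are equal
      have hZ'f : IsFace v (Z.filter fun i => (-u') (v i) = 0) :=
        hZ.rel (-u') fun i hi => by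
          rw [LinearMap.neg_apply]
          have := htop i hi
          linarith
      obtain ⟨Z', hZ'⟩ : ∃ Z', Z' = Z.filter fun i => (-u') (v i) = 0 := ⟨_, rfl⟩
      rw [← hZ'] at hZ'f
      have hmem : ∀ i, i ∈ Z' ↔ i ∈ Z ∧ u' (v i) = 0 := by
        intro i
        rw [hZ', Finset.mem_filter, LinearMap.neg_apply, neg_eq_zero]
      have heq : BU v u F₀ Z = Fam v F₀ Z' ∅ := by
        ext G
        rw [mem_BU, mem_Fam_empty]
        constructor
        · rintro ⟨hG1, hG2, hG3, hG4⟩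
          refine ⟨hG1, hG2, fun i hi => (hmem i).2 ⟨hG3 hi, ?_⟩⟩
          by_cases hiF : i ∈ F₀
          · exact hu'0 i hiF
          · have h2 := hmin' i (hG3 hi) (hG4 i hi hiF)
            have h3 := htop i (hG3 hi)
            rw [hu'v] at h3 ⊢
            linarith
        · rintro ⟨hG1, hG2, hG3⟩
          refine ⟨hG1, hG2, fun i hi => ((hmem i).1 (hG3 hi)).1, fun i hi hiF => ?_⟩
          have h2 := ((hmem i).1 (hG3 hi)).2
          rw [hu'v] at h2
          have h3 : 0 < ψ (v i) := lt_of_le_of_ne (h0 i) fun h => hiF ((h1 i).2 h.symm)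
          have h4 := mul_pos htpos h3
          linarith
      rw [heq]
      refine IHa Z' hZ'f ?_ ?_
      · refine Finset.ssubset_iff_subset_ne.2 ⟨fun i hi => (hmem i).2 ⟨hss hi, hu'0 i hi⟩, ?_⟩
        intro h
        exact hi₁F (h ▸ (hmem i₁).2 ⟨hi₁.1, hu'1⟩)
      · refine Finset.ssubset_iff_subset_ne.2 ⟨fun i hi => ((hmem i).1 hi).1, ?_⟩
        intro h
        refine hnc' ⟨0, fun i hi => ?_⟩
        rw [zero_mul]
        rw [← h] at hi
        exact ((hmem i).1 hi).2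

omit [Fintype ι] in
/-- a functional that is not a multiple of `ψ` -/
theorem exists_w [FiniteDimensional ℝ E] (v : ι → E) (F₀ Z : Finset ι) (hss : F₀ ⊂ Z)
    (hrk : rk v (F₀ : Set ι) + 2 ≤ rk v (Z : Set ι)) (ψ : Module.Dual ℝ E)
    (h1 : ∀ i, i ∈ F₀ ↔ ψ (v i) = 0) :
    ∃ w : Module.Dual ℝ E, (∀ i ∈ F₀, w (v i) = 0) ∧
      ¬ ∃ s : ℝ, ∀ i ∈ Z, w (v i) = s * ψ (v i) := by
  obtain ⟨i₀, hi₀, hi₀F⟩ := Finset.exists_of_ssubset hss
  have hr : rk v (insert i₀ (F₀ : Set ι)) ≤ rk v (F₀ : Set ι) + 1 := by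
    have h2 := rk_union_add_inter v {i₀} (F₀ : Set ι)
    have h3 : rk v ({i₀} : Set ι) ≤ 1 := by
      unfold rk
      rw [Set.image_singleton]
      refine (finrank_span_le_card ({v i₀} : Set E)).trans ?_
      simp
    rw [Set.singleton_union] at h2
    omega
  have hj : ∃ j ∈ Z, v j ∉ Submodule.span ℝ (v '' (insert i₀ (F₀ : Set ι))) := by
    by_contra hcon
    push Not at hcon
    have h2 : Submodule.span ℝ (v '' (Z : Set ι)) ≤
        Submodule.span ℝ (v '' (insert i₀ (F₀ : Set ι))) := by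
      rw [Submodule.span_le]
      rintro _ ⟨j, hj, rfl⟩
      exact hcon j hj
    have h3 := Submodule.finrank_mono h2
    unfold rk at hrk hr
    omega
  obtain ⟨j, hjZ, hj⟩ := hj
  obtain ⟨w, hw1, hw2⟩ := Submodule.exists_le_ker_of_notMem hj
  refine ⟨w, fun i hi => ?_, ?_⟩
  · exact hw2 (Submodule.subset_span ⟨i, Set.mem_insert_of_mem _ hi, rfl⟩)
  · rintro ⟨s, hs⟩
    have h2 : w (v i₀) = 0 := hw2 (Submodule.subset_span ⟨i₀, Set.mem_insert _ _, rfl⟩)
    have h3 := hs i₀ hi₀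
    rw [h2] at h3
    have h4 : ψ (v i₀) ≠ 0 := fun h => hi₀F ((h1 i₀).2 h)
    have h5 : s = 0 := by
      rcases mul_eq_zero.1 h3.symm with h | h
      · exact h
      · exact absurd h h4
    have h6 := hs j hjZ
    rw [h5, zero_mul] at h6
    exact hw1 h6

open scoped Classical in
/-- Step 2 in the case of rank difference at least two -/
theorem step2 [FiniteDimensional ℝ E] (hF : Stmt_Filt) (hC : Stmt_CxFace) (v : ι → E)
    (F₀ Z : Finset ι) (hF₀ : IsFace v F₀) (hZ : IsFace v Z) (hss : F₀ ⊂ Z) (n : ℕ)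
    (hrk : rk v (F₀ : Set ι) + 2 ≤ rk v (Z : Set ι))
    (IHa : ∀ Z', IsFace v Z' → F₀ ⊂ Z' → Z' ⊂ Z → (fInc v).Exact (Fam v F₀ Z' ∅) n)
    (IHb : ∀ (F₁ : Finset ι) (u : Module.Dual ℝ E), IsFace v F₁ → F₀ ⊂ F₁ → F₁ ⊂ Z →
      (∀ i ∈ F₁, u (v i) = 0) → (∃ i ∈ Z, 0 < u (v i)) → (fInc v).Exact (BU v u F₁ Z) n) :
    (fInc v).Exact (Fam v F₀ Z ∅) n := by
  obtain ⟨ψ, h0, h1⟩ := id hF₀
  obtain ⟨w, hw0, hwnc⟩ := exists_w v F₀ Z hss hrk ψ h1
  have hne : (Z \ F₀).Nonempty := by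
    obtain ⟨i₀, hi₀, hi₀F⟩ := Finset.exists_of_ssubset hss
    exact ⟨i₀, Finset.mem_sdiff.2 ⟨hi₀, hi₀F⟩⟩
  obtain ⟨i₁, hi₁, hmin⟩ := Finset.exists_min_image _ (fun i => w (v i) / ψ (v i)) hne
  rw [Finset.mem_sdiff] at hi₁
  have hpsi : ∀ i, i ∉ F₀ → 0 < ψ (v i) := fun i hi =>
    lt_of_le_of_ne (h0 i) fun h => hi ((h1 i).2 h.symm)
  obtain ⟨t, ht⟩ : ∃ t, t = w (v i₁) / ψ (v i₁) := ⟨_, rfl⟩
  obtain ⟨g, hg⟩ : ∃ g : Module.Dual ℝ E, g = w - t • ψ := ⟨_, rfl⟩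
  have hgv : ∀ i, g (v i) = w (v i) - t * ψ (v i) := by
    intro i
    rw [hg, LinearMap.sub_apply, LinearMap.smul_apply, smul_eq_mul]
  have hg0 : ∀ i ∈ F₀, g (v i) = 0 := by
    intro i hi
    rw [hgv, hw0 i hi, (h1 i).1 hi, mul_zero, sub_zero]
  have hgnn : ∀ i ∈ Z, 0 ≤ g (v i) := by
    intro i hi
    by_cases hiF : i ∈ F₀
    · rw [hg0 i hiF]
    · have := hmin i (Finset.mem_sdiff.2 ⟨hi, hiF⟩)
      rw [← ht, le_div_iff₀ (hpsi i hiF)] at this
      rw [hgv]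
      linarith
  have hgnc : ¬ ∃ s : ℝ, ∀ i ∈ Z, g (v i) = s * ψ (v i) := by
    rintro ⟨s, hs⟩
    refine hwnc ⟨s + t, fun i hi => ?_⟩
    have := hs i hi
    rw [hgv] at this
    linarith
  have hgpos : ∃ i ∈ Z, 0 < g (v i) := by
    by_contra hcon
    push Not at hcon
    refine hgnc ⟨0, fun i hi => ?_⟩
    rw [zero_mul]
    exact le_antisymm (hcon i hi) (hgnn i hi)
  refine exact_of_pieces hF hC v _ (fun G hG => (mem_Fam_empty.1 hG).1) Fam_conv g n ?_
  intro G hG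
  obtain ⟨hG1, hG2, hG3⟩ := mem_Fam_empty.1 hG
  obtain ⟨F₁, hF₁⟩ : ∃ F₁, F₁ = G.filter fun i => g (v i) = 0 := ⟨_, rfl⟩
  have hF₁f : IsFace v F₁ := hF₁ ▸ hG1.rel g fun i hi => hgnn i (hG3 hi)
  have hF₀₁ : F₀ ⊆ F₁ := by
    intro i hi
    rw [hF₁, Finset.mem_filter]
    exact ⟨hG2 hi, hg0 i hi⟩
  have hF₁G : F₁ ⊆ G := hF₁ ▸ Finset.filter_subset _ _
  have hgF₁ : ∀ i ∈ F₁, g (v i) = 0 := by
    intro i hi
    rw [hF₁, Finset.mem_filter] at hi
    exact hi.2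
  have hpiece : (Fam v F₀ Z ∅).filter (fun H =>
      (H.filter fun i => g (v i) = 0) = G.filter fun i => g (v i) = 0) = BU v g F₁ Z := by
    ext H
    rw [Finset.mem_filter, ← hF₁, mem_Fam_empty, mem_BU]
    constructor
    · rintro ⟨⟨hH1, hH2, hH3⟩, hHF⟩
      refine ⟨hH1, hHF ▸ Finset.filter_subset _ _, hH3, fun i hi hiF => ?_⟩
      refine lt_of_le_of_ne (hgnn i (hH3 hi)) fun h => hiF ?_
      rw [← hHF, Finset.mem_filter]
      exact ⟨hi, h.symm⟩
    · rintro ⟨hH1, hH2, hH3, hH4⟩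
      refine ⟨⟨hH1, hF₀₁.trans hH2, hH3⟩, ?_⟩
      ext i
      rw [Finset.mem_filter]
      constructor
      · rintro ⟨hi, hi0⟩
        by_contra hi1
        have := hH4 i hi hi1
        rw [hi0] at this
        exact lt_irrefl _ this
      · intro hi
        exact ⟨hH2 hi, hgF₁ i hi⟩
  rw [hpiece]
  by_cases h01 : F₀ = F₁
  · rw [← h01]
    exact step1 hF hC v F₀ Z hZ hss.subset n ψ h0 h1 IHa IHb _ g hg0 hgnc hgpos le_rfl
  · refine IHb F₁ g hF₁f (Finset.ssubset_iff_subset_ne.2 ⟨hF₀₁, h01⟩) ?_ hgF₁ hgpos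
    refine Finset.ssubset_iff_subset_ne.2 ⟨hF₁G.trans hG3, ?_⟩
    rintro rfl
    obtain ⟨i, hi, hi'⟩ := hgpos
    rw [hgF₁ i hi] at hi'
    exact lt_irrefl _ hi'

/-- Step 2 in the case of rank difference one -/
theorem step2' [FiniteDimensional ℝ E] (v : ι → E)
    (F₀ Z : Finset ι) (hF₀ : IsFace v F₀) (hZ : IsFace v Z) (hss : F₀ ⊂ Z) (n : ℕ)
    (hrk : rk v (Z : Set ι) = rk v (F₀ : Set ι) + 1) :
    (fInc v).Exact (Fam v F₀ Z ∅) n := by
  classical
  have hFam : Fam v F₀ Z ∅ = {F₀, Z} := by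
    ext G
    rw [mem_Fam_empty, Finset.mem_insert, Finset.mem_singleton]
    constructor
    · rintro ⟨hG1, hG2, hG3⟩
      have h1 := rk_mono v (Finset.coe_subset.2 hG2)
      have h2 := rk_mono v (Finset.coe_subset.2 hG3)
      by_cases h : rk v (G : Set ι) = rk v (F₀ : Set ι)
      · exact Or.inl (hF₀.eq_of_rk_le hG2 h.le).symm
      · exact Or.inr (hG1.eq_of_rk_le hG3 (by omega))
    · rintro (rfl | rfl)
      · exact ⟨hF₀, Finset.Subset.refl _, hss.subset⟩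
      · exact ⟨hZ, hss.subset, Finset.Subset.refl _⟩
  have hne : F₀ ≠ Z := hss.ne
  have hd1 : (fInc v).d Z F₀ = 1 := fInc_d_one hss.subset hrk.symm
  have hd0 : ∀ G H : Finset ι, rk v (H : Set ι) + 1 ≠ rk v (G : Set ι) → (fInc v).d G H = 0 := by
    intro G H h
    by_contra h2
    exact h (fInc_d.1 h2).2
  rw [hFam]
  intro c hc hcyc
  have hbd : ∀ (c : Finset ι → ZMod 2) (y : Finset ι), (fInc v).bd {F₀, Z} c y =
      c F₀ * (fInc v).d F₀ y + c Z * (fInc v).d Z y := by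
    intro c y
    show ∑ x ∈ {F₀, Z}, c x * (fInc v).d x y = _
    rw [Finset.sum_pair hne]
  have hcZ : c Z = 0 := by
    have h1 := hcyc F₀ (by simp)
    rw [hbd, hd0 F₀ F₀ (by omega), hd1, mul_zero, zero_add, mul_one] at h1
    exact h1
  refine ⟨fun x => if x = Z then c F₀ else 0, ?_, ?_⟩
  · intro x hx hne'
    by_cases hxZ : x = Z
    · simp only [hxZ, if_true] at hne'
      have := hc F₀ (by simp) hne'
      rw [fInc_gr] at this
      rw [hxZ, fInc_gr]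
      omega
    · simp only [hxZ, if_false, ne_eq, not_true_eq_false] at hne'
  · intro y hy
    rw [hbd]
    simp only [if_true, if_neg hne, zero_mul, zero_add]
    rw [Finset.mem_insert, Finset.mem_singleton] at hy
    rcases hy with rfl | rfl
    · rw [hd1, mul_one]
    · rw [hd0 y y (by omega), mul_zero, hcZ]

/-- the main induction -/
theorem main [FiniteDimensional ℝ E] (hF : Stmt_Filt) (hC : Stmt_CxFace) (v : ι → E) (n : ℕ) :
    ∀ (D : ℕ) (F₀ Z : Finset ι), IsFace v F₀ → IsFace v Z → F₀ ⊂ Z →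
      rk v (Z : Set ι) ≤ rk v (F₀ : Set ι) + D →
      (fInc v).Exact (Fam v F₀ Z ∅) n ∧
      ∀ u : Module.Dual ℝ E, (∀ i ∈ F₀, u (v i) = 0) → (∃ i ∈ Z, 0 < u (v i)) →
        (fInc v).Exact (BU v u F₀ Z) n := by
  intro D
  induction D with
  | zero =>
    intro F₀ Z hF₀ hZ hss hrk
    have := hF₀.rk_lt_of_ssubset hss
    omega
  | succ D ih =>
    intro F₀ Z hF₀ hZ hss hrk
    have IHa : ∀ Z', IsFace v Z' → F₀ ⊂ Z' → Z' ⊂ Z → (fInc v).Exact (Fam v F₀ Z' ∅) n := by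
      intro Z' hZ' h1 h2
      have := hZ'.rk_lt_of_ssubset h2
      exact (ih F₀ Z' hF₀ hZ' h1 (by omega)).1
    have IHb : ∀ (F₁ : Finset ι) (u : Module.Dual ℝ E), IsFace v F₁ → F₀ ⊂ F₁ → F₁ ⊂ Z →
        (∀ i ∈ F₁, u (v i) = 0) → (∃ i ∈ Z, 0 < u (v i)) → (fInc v).Exact (BU v u F₁ Z) n := by
      intro F₁ u hF₁ h1 h2 h3 h4
      have := hF₀.rk_lt_of_ssubset h1
      exact (ih F₁ Z hF₁ hZ h2 (by omega)).2 u h3 h4
    have ha : (fInc v).Exact (Fam v F₀ Z ∅) n := by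
      by_cases hD : rk v (F₀ : Set ι) + 2 ≤ rk v (Z : Set ι)
      · exact step2 hF hC v F₀ Z hF₀ hZ hss n hD IHa IHb
      · have := hF₀.rk_lt_of_ssubset hss
        exact step2' v F₀ Z hF₀ hZ hss n (by omega)
    refine ⟨ha, fun u hu0 hpos => ?_⟩
    obtain ⟨ψ, h0, h1⟩ := id hF₀
    by_cases hnc : ∃ s : ℝ, ∀ i ∈ Z, u (v i) = s * ψ (v i)
    · obtain ⟨s, hs⟩ := hnc
      have hspos : 0 < s := by
        obtain ⟨i, hi, hi'⟩ := hpos
        rw [hs i hi] at hi'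
        by_contra hcon
        push Not at hcon
        have := mul_nonneg (neg_nonneg.2 hcon) (h0 i)
        linarith
      have heq : BU v u F₀ Z = Fam v F₀ Z ∅ := by
        ext G
        rw [mem_BU, mem_Fam_empty]
        constructor
        · rintro ⟨hG1, hG2, hG3, -⟩
          exact ⟨hG1, hG2, hG3⟩
        · rintro ⟨hG1, hG2, hG3⟩
          refine ⟨hG1, hG2, hG3, fun i hi hiF => ?_⟩
          rw [hs i (hG3 hi)]
          exact mul_pos hspos (lt_of_le_of_ne (h0 i) fun h => hiF ((h1 i).2 h.symm))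
      rw [heq]
      exact ha
    · exact step1 hF hC v F₀ Z hZ hss.subset n ψ h0 h1 IHa IHb _ u hu0 hnc hpos le_rfl

end Interval99

theorem stmt_Interval (hF : Stmt_Filt) (hC : Stmt_CxFace) : Stmt_Interval := by
  intro ι E _ _ _ _ v F₀ Z n hF₀ hZ hss
  exact (Interval99.main hF hC v n (rk v (Z : Set ι)) F₀ Z hF₀ hZ hss (by omega)).1

end Pool.Agent.TP
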