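import Mathlib
import Pool.Agent.Work.MP_c51d14_co.Interface

/-!
# TENSOR: exactness of the product in small sizes
-/

namespace Pool.Agent.TP

open Finset Matrix

namespace Tensor99

/-- matrix version of exactness (chains are row vectors) -/
def MEx {X : Type} [Fintype X] (P : Matrix X X (ZMod 2)) (g : X → ℕ) (n : ℕ) : Prop :=
  ∀ c : X → ZMod 2, (∀ x, c x ≠ 0 → g x = n) → c ᵥ* P = 0 →
    ∃ b : X → ZMod 2, (∀ x, b x ≠ 0 → g x = n + 1) ∧ b ᵥ* P = c

theorem zadd_self (x : ZMod 2) : x + x = 0 := CharTwo.add_self_eq_zero x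

theorem madd_self {X Y : Type} (M : Matrix X Y (ZMod 2)) : M + M = 0 := by
  ext i j
  exact zadd_self _

theorem contraction {X : Type} [Fintype X] [DecidableEq X] (P : Matrix X X (ZMod 2)) (g : X → ℕ)
    (hg : ∀ x y, P x y ≠ 0 → g y + 1 = g x) (hPP : P * P = 0) (a : ℕ)
    (hex : ∀ p < a, MEx P g p) :
    ∃ H : Matrix X X (ZMod 2), ∀ x, g x < a → (∀ z, H x z ≠ 0 → g z = g x + 1) ∧
      ∀ z, (H * P + P * H) x z = (1 : Matrix X X (ZMod 2)) x z := by
  induction a with
  | zero => exact ⟨0, fun x hx => absurd hx (Nat.not_lt_zero _)⟩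
  | succ a ih =>
    obtain ⟨H, hH⟩ := ih fun p hp => hex p (Nat.lt_succ_of_lt hp)
    -- the new cells
    have key : ∀ x, g x = a → ∃ b : X → ZMod 2, (∀ z, b z ≠ 0 → g z = a + 1) ∧
        b ᵥ* P = fun z => (1 + P * H) x z := by
      intro x hx
      refine hex a (Nat.lt_succ_self a) (fun z => (1 + P * H) x z) ?_ ?_
      · intro z hz
        by_contra hne
        apply hz
        have h1 : (1 : Matrix X X (ZMod 2)) x z = 0 := by
          rw [Matrix.one_apply_ne]
          rintro rfl
          exact hne hx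
        have h2 : (P * H) x z = 0 := by
          rw [Matrix.mul_apply]
          refine Finset.sum_eq_zero fun w _ => ?_
          by_contra h3
          have h4 := left_ne_zero_of_mul h3
          have h5 := right_ne_zero_of_mul h3
          have h6 := hg _ _ h4
          have h7 := (hH w (by omega)).1 z h5
          omega
        rw [Matrix.add_apply, h1, h2, add_zero]
      · funext z
        have h1 : ((fun z => (1 + P * H) x z) ᵥ* P) z = ((1 + P * H) * P) x z := by
          rw [Matrix.mul_apply]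
          rfl
        rw [h1, Matrix.add_mul, Matrix.one_mul, Matrix.mul_assoc, Matrix.add_apply]
        have h2 : (P * (H * P)) x z = (P * (1 + P * H)) x z := by
          rw [Matrix.mul_apply, Matrix.mul_apply]
          refine Finset.sum_congr rfl fun w _ => ?_
          by_cases h3 : P x w = 0
          · rw [h3, zero_mul, zero_mul]
          · have h6 := hg _ _ h3
            have h7 := (hH w (by omega)).2 z
            rw [Matrix.add_apply] at h7
            rw [Matrix.add_apply, ← h7, add_assoc, zadd_self, add_zero]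
        rw [h2, Matrix.mul_add, Matrix.mul_one, ← Matrix.mul_assoc, hPP, Matrix.zero_mul, add_zero]
        exact zadd_self _
    choose! b hb1 hb2 using key
    obtain ⟨H', hH'⟩ : ∃ H' : Matrix X X (ZMod 2), ∀ x z, H' x z = if g x = a then b x z else H x z :=
      ⟨Matrix.of fun x z => if g x = a then b x z else H x z, fun x z => rfl⟩
    refine ⟨H', fun x hx => ?_⟩
    have hPH : ∀ z, (P * H') x z = (P * H) x z := by
      intro z
      rw [Matrix.mul_apply, Matrix.mul_apply]
      refine Finset.sum_congr rfl fun w _ => ?_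
      by_cases h3 : P x w = 0
      · rw [h3, zero_mul, zero_mul]
      · have h6 := hg _ _ h3
        have h7 : ¬ g w = a := by omega
        rw [hH', if_neg h7]
    by_cases hxa : g x = a
    · refine ⟨fun z hz => ?_, fun z => ?_⟩
      · rw [hH', if_pos hxa] at hz
        rw [hxa]
        exact hb1 x hxa z hz
      · rw [Matrix.add_apply, hPH]
        have h1 : (H' * P) x z = (b x ᵥ* P) z := by
          rw [Matrix.mul_apply]
          exact Finset.sum_congr rfl fun w _ => by rw [hH', if_pos hxa]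
        have h2 : (b x ᵥ* P) z = (1 + P * H) x z := by rw [hb2 x hxa]
        rw [h1, h2, Matrix.add_apply, add_assoc, zadd_self, add_zero]
    · have hlt : g x < a := by omega
      refine ⟨fun z hz => ?_, fun z => ?_⟩
      · rw [hH', if_neg hxa] at hz
        exact (hH x hlt).1 z hz
      · rw [← (hH x hlt).2 z, Matrix.add_apply, Matrix.add_apply, hPH]
        congr 1
        rw [Matrix.mul_apply, Matrix.mul_apply]
        exact Finset.sum_congr rfl fun w _ => by rw [hH', if_neg hxa]

/-- the matrix form of TENSOR -/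
theorem mtensor {X Y : Type} [Fintype X] [DecidableEq X] [Fintype Y] [DecidableEq Y]
    (P : Matrix X X (ZMod 2)) (Q : Matrix Y Y (ZMod 2)) (g : X → ℕ) (k : Y → ℕ)
    (hg : ∀ x y, P x y ≠ 0 → g y + 1 = g x) (hk : ∀ x y, Q x y ≠ 0 → k y + 1 = k x)
    (hPP : P * P = 0) (hQQ : Q * Q = 0) (a b n : ℕ) (hA : ∀ p < a, MEx P g p)
    (hB : ∀ q < b, MEx Q k q) (hn : n < a + b) (C : Matrix X Y (ZMod 2))
    (hC : ∀ x y, C x y ≠ 0 → g x + k y = n) (hcyc : Pᵀ * C + C * Q = 0) :
    ∃ D : Matrix X Y (ZMod 2), (∀ x y, D x y ≠ 0 → g x + k y = n + 1) ∧ Pᵀ * D + D * Q = C := by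
  obtain ⟨G, hG⟩ := contraction P g hg hPP a hA
  obtain ⟨H, hH⟩ := contraction Q k hk hQQ b hB
  have hPC : Pᵀ * C = C * Q := by
    have := congrArg (fun M => M + C * Q) hcyc
    simp only [zero_add, add_assoc, madd_self, add_zero] at this
    exact this
  set H' : Matrix Y Y (ZMod 2) := fun y z => if k y < b then H y z else 0 with hH'
  have hH'lt : ∀ y, k y < b → ∀ z, H' y z = H y z := fun y hy z => by simp only [hH', hy, if_true]
  have hH'ge : ∀ y, ¬ k y < b → ∀ z, H' y z = 0 := fun y hy z => by simp only [hH', hy, if_false]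
  set M : Matrix Y Y (ZMod 2) := 1 + (Q * H' + H' * Q) with hM
  have hMs : ∀ y z, M y z ≠ 0 → k z = k y ∧ b ≤ k y := by
    intro y z hyz
    have hby : b ≤ k y := by
      by_contra hlt
      push Not at hlt
      apply hyz
      have h1 : (Q * H') y z = (Q * H) y z := by
        rw [Matrix.mul_apply, Matrix.mul_apply]
        refine Finset.sum_congr rfl fun w _ => ?_
        by_cases h3 : Q y w = 0
        · rw [h3, zero_mul, zero_mul]
        · rw [hH'lt w (by have := hk _ _ h3; omega)]
      have h2 : (H' * Q) y z = (H * Q) y z := by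
        rw [Matrix.mul_apply, Matrix.mul_apply]
        exact Finset.sum_congr rfl fun w _ => by rw [hH'lt y hlt]
      have h3 := (hH y hlt).2 z
      rw [Matrix.add_apply] at h3
      rw [hM, Matrix.add_apply, Matrix.add_apply, h1, h2, add_comm ((Q * H) y z), h3, zadd_self]
    refine ⟨?_, hby⟩
    by_contra hne
    apply hyz
    have h1 : (1 : Matrix Y Y (ZMod 2)) y z = 0 := by
      rw [Matrix.one_apply_ne]
      rintro rfl
      exact hne rfl
    have h2 : (H' * Q) y z = 0 := by
      rw [Matrix.mul_apply]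
      exact Finset.sum_eq_zero fun w _ => by rw [hH'ge y (by omega), zero_mul]
    have h3 : (Q * H') y z = 0 := by
      rw [Matrix.mul_apply]
      refine Finset.sum_eq_zero fun w _ => ?_
      by_contra h4
      have h5 := hk _ _ (left_ne_zero_of_mul h4)
      have h6 := right_ne_zero_of_mul h4
      by_cases h7 : k w < b
      · rw [hH'lt w h7] at h6
        have := (hH w h7).1 z h6
        omega
      · exact h6 (hH'ge w h7 z)
    rw [hM, Matrix.add_apply, Matrix.add_apply, h1, h2, h3, add_zero, add_zero]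
  -- the rest after the first homotopy
  have hCM : Pᵀ * (C * H') + C * H' * Q = C * (Q * H' + H' * Q) := by
    rw [← Matrix.mul_assoc, hPC, Matrix.mul_add, Matrix.mul_assoc, Matrix.mul_assoc]
  set C' : Matrix X Y (ZMod 2) := C * M with hC'
  have hC'eq : C' = C + (Pᵀ * (C * H') + C * H' * Q) := by
    rw [hCM, hC', hM, Matrix.mul_add, Matrix.mul_one]
  have hC's : ∀ x z, C' x z ≠ 0 → g x + k z = n ∧ g x < a := by
    intro x z hxz
    rw [hC', Matrix.mul_apply] at hxz
    obtain ⟨y, -, hy⟩ := Finset.exists_ne_zero_of_sum_ne_zero hxz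
    have h1 := hC _ _ (left_ne_zero_of_mul hy)
    have h2 := hMs _ _ (right_ne_zero_of_mul hy)
    omega
  have hC'cyc : Pᵀ * C' = C' * Q := by
    rw [hC'eq, Matrix.mul_add, Matrix.add_mul, hPC]
    congr 1
    rw [Matrix.mul_add, Matrix.add_mul, ← Matrix.mul_assoc Pᵀ Pᵀ, ← Matrix.transpose_mul, hPP,
      Matrix.transpose_zero, Matrix.zero_mul, zero_add, Matrix.mul_assoc (C * H') Q Q, hQQ,
      Matrix.mul_zero, add_zero, Matrix.mul_assoc Pᵀ (C * H') Q]
  refine ⟨C * H' + Gᵀ * C', ?_, ?_⟩
  · intro x z hxz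
    rw [Matrix.add_apply] at hxz
    by_cases h0 : (C * H') x z = 0
    · rw [h0, zero_add, Matrix.mul_apply] at hxz
      obtain ⟨w, -, hw⟩ := Finset.exists_ne_zero_of_sum_ne_zero hxz
      have h1 := hC's _ _ (right_ne_zero_of_mul hw)
      have h2 := (hG w h1.2).1 x (left_ne_zero_of_mul hw)
      omega
    · rw [Matrix.mul_apply] at h0
      obtain ⟨w, -, hw⟩ := Finset.exists_ne_zero_of_sum_ne_zero h0
      have h1 := hC _ _ (left_ne_zero_of_mul hw)
      have h2 := right_ne_zero_of_mul hw
      by_cases h7 : k w < b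
      · rw [hH'lt w h7] at h2
        have := (hH w h7).1 z h2
        omega
      · exact absurd (hH'ge w h7 z) h2
  · have hGC : Pᵀ * (Gᵀ * C') + Gᵀ * C' * Q = C' := by
      rw [Matrix.mul_assoc Gᵀ, ← hC'cyc, ← Matrix.mul_assoc Pᵀ Gᵀ C', ← Matrix.mul_assoc Gᵀ Pᵀ C',
        ← Matrix.transpose_mul, ← Matrix.transpose_mul, ← Matrix.add_mul,
        ← Matrix.transpose_add]
      ext x z
      rw [Matrix.mul_apply]
      have h1 : ∀ w, (G * P + P * G)ᵀ x w * C' w z = (1 : Matrix X X (ZMod 2)) w x * C' w z := by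
        intro w
        by_cases h2 : C' w z = 0
        · rw [h2, mul_zero, mul_zero]
        · rw [Matrix.transpose_apply, (hG w (hC's _ _ h2).2).2 x]
      rw [Finset.sum_congr rfl fun w _ => h1 w]
      simp [Matrix.one_apply]
    rw [Matrix.mul_add, Matrix.add_mul, add_add_add_comm, hGC, hC'eq, ← add_assoc,
      add_comm (Pᵀ * (C * H') + C * H' * Q) C, add_assoc, madd_self, add_zero]

/-- the incidence matrix -/
def imat {X : Type} (A : Inc X) (s : Finset X) : Matrix s s (ZMod 2) :=
  Matrix.of fun x y => A.d x y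

/-- a chain on a product as a matrix -/
def cmat {X Y : Type} (s : Finset X) (t : Finset Y) (c : X × Y → ZMod 2) : Matrix s t (ZMod 2) :=
  Matrix.of fun x y => c (x, y)

open scoped Classical in
/-- restriction of an incidence function to a finite set of cells -/
theorem mEx_of_exact {X : Type} (A : Inc X) (s : Finset X) (n : ℕ) (h : A.Exact s n) :
    MEx (imat A s) (fun x : s => A.gr x) n := by
  intro c hc hcyc
  have hs : ∀ x ∈ s, (fun x => if h : x ∈ s then c ⟨x, h⟩ else 0) x ≠ 0 → A.gr x = n := by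
    intro x hx hne
    simp only [hx, dif_pos] at hne
    exact hc ⟨x, hx⟩ hne
  have hb : ∀ y ∈ s, A.bd s (fun x => if h : x ∈ s then c ⟨x, h⟩ else 0) y = 0 := by
    intro y hy
    have h1 := congrFun hcyc ⟨y, hy⟩
    change ∑ x : s, c x * A.d x y = 0 at h1
    show ∑ x ∈ s, (if h : x ∈ s then c ⟨x, h⟩ else 0) * A.d x y = 0
    rw [← Finset.sum_coe_sort s fun x => (if h : x ∈ s then c ⟨x, h⟩ else 0) * A.d x y, ← h1]
    exact Finset.sum_congr rfl fun x _ => by simp
  obtain ⟨b, hb1, hb2⟩ := h (fun x => if h : x ∈ s then c ⟨x, h⟩ else 0) hs hb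
  refine ⟨fun x => b x, fun x hx => hb1 x x.2 hx, ?_⟩
  funext y
  have h1 := hb2 y y.2
  simp only [y.2, dif_pos] at h1
  rw [← h1]
  show ∑ x : s, b x * A.d x y = ∑ x ∈ s, b x * A.d x y
  rw [← Finset.sum_coe_sort s fun x => b x * A.d x y]

theorem sq_zero_of_isCx {X : Type} (A : Inc X) (s : Finset X) (h : A.IsCx s) :
    imat A s * imat A s = 0 := by
  ext x z
  rw [Matrix.mul_apply]
  show ∑ y : s, A.d x y * A.d y z = 0
  rw [Finset.sum_coe_sort s fun y => A.d x y * A.d y z]
  exact h x x.2 z z.2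

end Tensor99

open Tensor99 in
theorem stmt_Tensor : Stmt_Tensor := by
  classical
  intro X Y A B s t a b n hAs hBt hA hB hn c hc hcyc
  have hbd : ∀ (c : X × Y → ZMod 2) (x : X) (y : Y) (hx : x ∈ s) (hy : y ∈ t),
      (A.prod B).bd (s ×ˢ t) c (x, y) =
      ((imat A s)ᵀ * cmat s t c + cmat s t c * imat B t) ⟨x, hx⟩ ⟨y, hy⟩ := by
    intro c x y hx hy
    rw [Matrix.add_apply, Matrix.mul_apply, Matrix.mul_apply]
    show ∑ p ∈ s ×ˢ t, c p * (A.prod B).d p (x, y) =
      (∑ x' : s, A.d x' x * c (x', y)) + ∑ y' : t, c (x, y') * B.d y' y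
    rw [Finset.sum_coe_sort s fun x' => A.d x' x * c (x', y),
      Finset.sum_coe_sort t fun y' => c (x, y') * B.d y' y, Finset.sum_product]
    have h1 : ∀ x' ∈ s, ∀ y' ∈ t, c (x', y') * (A.prod B).d (x', y') (x, y) =
        (if y' = y then c (x', y') * A.d x' x else 0) +
        (if x' = x then c (x', y') * B.d y' y else 0) := by
      intro x' _ y' _
      show c (x', y') * ((if y' = y then A.d x' x else 0) + (if x' = x then B.d y' y else 0)) = _
      rw [mul_add, mul_ite, mul_ite, mul_zero]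
    rw [Finset.sum_congr rfl fun x' hx' => Finset.sum_congr rfl fun y' hy' => h1 x' hx' y' hy']
    simp only [Finset.sum_add_distrib]
    congr 1
    · refine Finset.sum_congr rfl fun x' _ => ?_
      rw [Finset.sum_ite_eq' t y, if_pos hy, mul_comm]
    · rw [Finset.sum_comm]
      refine Finset.sum_congr rfl fun y' _ => ?_
      rw [Finset.sum_ite_eq' s x, if_pos hx]
  obtain ⟨D, hD1, hD2⟩ := mtensor (imat A s) (imat B t)
    (fun x : s => A.gr x) (fun y : t => B.gr y) (fun x y h => A.gr_d _ _ h)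
    (fun x y h => B.gr_d _ _ h) (sq_zero_of_isCx A s hAs) (sq_zero_of_isCx B t hBt) a b n
    (fun p hp => mEx_of_exact A s p (hA p hp)) (fun q hq => mEx_of_exact B t q (hB q hq)) hn
    (cmat s t c)
    (fun x y h => hc (x, y) (Finset.mk_mem_product x.2 y.2) h)
    (by
      ext x y
      rw [← hbd c x y x.2 y.2]
      exact hcyc (x, y) (Finset.mk_mem_product x.2 y.2))
  refine ⟨fun p => if h : p.1 ∈ s ∧ p.2 ∈ t then D ⟨p.1, h.1⟩ ⟨p.2, h.2⟩ else 0, ?_, ?_⟩
  · intro p hp hne
    rw [Finset.mem_product] at hp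
    simp only [hp, and_self, dif_pos] at hne
    exact hD1 _ _ hne
  · rintro ⟨x, y⟩ hp
    rw [Finset.mem_product] at hp
    rw [hbd _ x y hp.1 hp.2]
    have h1 := congrFun (congrFun hD2 ⟨x, hp.1⟩) ⟨y, hp.2⟩
    have h2 : cmat s t (fun p : X × Y =>
        if h : p.1 ∈ s ∧ p.2 ∈ t then D ⟨p.1, h.1⟩ ⟨p.2, h.2⟩ else 0) = D := by
      ext x y
      simp [cmat]
    rw [h2]
    exact h1

end Pool.Agent.TP
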